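import Pool.Agent.H809AV.Basic

/-!
# A win of the first player needs small orbits of pointwise stabilizers
-/

set_option autoImplicit false

namespace Pool.Agent.Results.MP_675c19_co.FiniteOrbit

open Set Pool.Agent.H809AV

/-- In an infinite transitive avoidance game that P1 wins there are a finite non-empty set `F` and a point `x` outside
`F` such that `F` together with `x` contains no line and `x` has at most `|F| + 1` images under the automorphisms that
fix all the points of `F`. -/
theorem result (V : Type) [Infinite V] (𝓛 : Set (Set V)) (ht : Transitive 𝓛) (h : P1Win 𝓛) :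
    ∃ (F : Set V) (x : V), F.Finite ∧ F.Nonempty ∧ x ∉ F ∧ (∀ L ∈ 𝓛, ¬ L ⊆ insert x F) ∧
      (StabOrbit 𝓛 F x).Finite ∧ (StabOrbit 𝓛 F x).ncard ≤ F.ncard + 1 := by
  by_contra hcon
  refine imitate (𝓛 := 𝓛) ?_ h finite_empty ⟨Equiv.refl V, fun L => by simp, by simp⟩
  rintro F x hF hx hs ⟨h1, h2⟩
  refine hcon ⟨F, x, hF, ?_, hx, hs, h1, h2⟩
  rw [nonempty_iff_ne_empty]
  rintro rfl
  refine (infinite_univ (α := V)) (h1.subset ?_)
  intro y _
  obtain ⟨g, hg, hgy⟩ := ht x y
  exact ⟨g, hg, fun f hf => absurd hf (notMem_empty f), hgy⟩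

end Pool.Agent.Results.MP_675c19_co.FiniteOrbit
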