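import Pool.Agent.H809AV.Basic

/-!
# If every four points contain a line, the first player does not win
-/

set_option autoImplicit false

namespace Pool.Agent.Results.MP_675c19_co.FourPoints

open Set Pool.Agent.H809AV

/-- In an infinite transitive avoidance game that P1 wins, some four points contain no line. -/
theorem result (V : Type) [Infinite V] (𝓛 : Set (Set V)) (ht : Transitive 𝓛) (h : P1Win 𝓛) :
    ∃ S : Set V, S.ncard = 4 ∧ ∀ L ∈ 𝓛, ¬ L ⊆ S := by
  obtain ⟨a, b, c, d, e1, e2, e3, e4, e5, e6, hs⟩ := four ht h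
  refine ⟨{a, b, c, d}, ?_, hs⟩
  rw [Set.ncard_insert_of_notMem (by simp [e1, e2, e3]),
    Set.ncard_insert_of_notMem (by simp [e4, e5]), Set.ncard_pair e6]

end Pool.Agent.Results.MP_675c19_co.FourPoints
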