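import Pool.Agent.H809AV.Basic

/-!
# A line with at most two points excludes a win of the first player
-/

set_option autoImplicit false

namespace Pool.Agent.Results.MP_675c19_co.ShortLines

open Set Pool.Agent.H809AV

/-- In an infinite transitive avoidance game that P1 wins, every line has at least three points. -/
theorem result (V : Type) [Infinite V] (𝓛 : Set (Set V)) (hfin : ∀ L ∈ 𝓛, L.Finite) (ht : Transitive 𝓛)
    (h : P1Win 𝓛) : ∀ L ∈ 𝓛, 3 ≤ L.ncard := by
  intro L hL
  by_contra hc
  rw [not_le] at hc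
  obtain ⟨v, -⟩ := (Set.finite_empty (α := V)).exists_notMem
  have h3 : L.ncard = 0 ∨ L.ncard = 1 ∨ L.ncard = 2 := by omega
  rcases h3 with h3 | h3 | h3
  · rw [Set.ncard_eq_zero (hfin L hL)] at h3
    obtain ⟨w, hw⟩ := (Set.finite_singleton v).exists_notMem
    exact (start ht h (v := v) (w := w) (fun hh => hw (by rw [hh]; rfl))).2 L hL
      (by rw [h3]; exact empty_subset _)
  · obtain ⟨a, ha⟩ := Set.ncard_eq_one.1 h3
    obtain ⟨w, hw⟩ := (Set.finite_singleton a).exists_notMem
    exact (start ht h (v := a) (w := w) (fun hh => hw (by rw [hh]; rfl))).2 L hL (by rw [ha])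
  · obtain ⟨a, b, hab, hL2⟩ := Set.ncard_eq_two.1 h3
    exact safe_pair ht h hab L hL (by rw [hL2])

end Pool.Agent.Results.MP_675c19_co.ShortLines
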